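import Pool.Agent.Helper42.QD.Stmts

namespace Pool.Agent.Helper72.QD

open Pool.Agent.Helper42.QD Pool.Agent.Helper42.QD.VD

variable {D k : Type} [DivisionRing D] [Field k] {c : VD D k}

/-- Multiplication by a smooth character preserves the Kirillov space. -/
theorem mulIsS (c : VD D k) (ch : D → ℂˣ) (n : ℕ)
    (hch : ∀ x u, c.P n u → x ≠ 0 → ch (x * (1 + u)) = ch x) {f : D → ℂ} (hf : IsS c f) :
    IsS c (fun x => (ch x : ℂ) * f x) := by
  obtain ⟨h0, m, hm, h1, h2⟩ := hf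
  refine ⟨by simp [h0], m + n, by omega, fun x u hu => ?_, fun x hx => ?_⟩
  · have hm' : c.P m u := P_mono (by push_cast; omega) hu
    have hn' : c.P n u := P_mono (by push_cast; omega) hu
    by_cases hx : x = 0
    · simp [hx, h0]
    · simp only [h1 x u hm', hch x u hn' hx]
  · have h3 : f x ≠ 0 := fun h => hx (by simp [h])
    have := h2 x h3
    push_cast
    omega

/-- Multiplication by a smooth character as a linear equivalence. -/
noncomputable def mulE (c : VD D k) (ch : D → ℂˣ) (n : ℕ)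
    (hch : ∀ x u, c.P n u → x ≠ 0 → ch (x * (1 + u)) = ch x) : Sp c ≃ₗ[ℂ] Sp c where
  toFun f := ⟨fun x => (ch x : ℂ) * f.1 x, mulIsS c ch n hch f.2⟩
  invFun f := ⟨fun x => ((ch x)⁻¹ : ℂˣ) * f.1 x, mulIsS c (fun x => (ch x)⁻¹) n
    (fun x u hu hx => by rw [hch x u hu hx]) f.2⟩
  map_add' := by
    intro f g
    apply Subtype.ext
    funext x
    change (ch x : ℂ) * (f.1 x + g.1 x) = (ch x : ℂ) * f.1 x + (ch x : ℂ) * g.1 x
    ring
  map_smul' := by
    intro a f
    apply Subtype.ext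
    funext x
    change (ch x : ℂ) * (a * f.1 x) = a * ((ch x : ℂ) * f.1 x)
    ring
  left_inv := by
    intro f
    apply Subtype.ext
    funext x
    change (((ch x)⁻¹ : ℂˣ) : ℂ) * ((ch x : ℂ) * f.1 x) = f.1 x
    rw [← mul_assoc, Units.inv_mul, one_mul]
  right_inv := by
    intro f
    apply Subtype.ext
    funext x
    change (ch x : ℂ) * ((((ch x)⁻¹ : ℂˣ) : ℂ) * f.1 x) = f.1 x
    rw [← mul_assoc, Units.mul_inv, one_mul]

theorem mulE_apply (c : VD D k) (ch : D → ℂˣ) (n : ℕ)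
    (hch : ∀ x u, c.P n u → x ≠ 0 → ch (x * (1 + u)) = ch x) (f : Sp c) (x : D) :
    (mulE c ch n hch f).1 x = (ch x : ℂ) * f.1 x := rfl

theorem mulE_symm_apply (c : VD D k) (ch : D → ℂˣ) (n : ℕ)
    (hch : ∀ x u, c.P n u → x ≠ 0 → ch (x * (1 + u)) = ch x) (f : Sp c) (x : D) :
    ((mulE c ch n hch).symm f).1 x = (((ch x)⁻¹ : ℂˣ) : ℂ) * f.1 x := rfl

theorem dg11 : dg (1 : D) 1 = 1 :=
  ext2 (by simp [dg_val]) (by simp [dg_val]) (by simp [dg_val]) (by simp [dg_val])

/-- The twisted central character. -/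
noncomputable def omT (om : D →*₀ ℂ) (lam : G2 D →* ℂˣ) : D →*₀ ℂ where
  toFun a := om a * (lam (dg a a) : ℂ)
  map_zero' := by simp
  map_one' := by simp [dg11]
  map_mul' := by
    intro a b
    by_cases ha : a = 0
    · simp [ha]
    by_cases hb : b = 0
    · simp [hb]
    rw [← dg_mul ha ha hb hb, map_mul, map_mul, Units.val_mul]
    ring

/-- The twisted representation. -/
noncomputable def rhoT (rho : Representation ℂ (G2 D) (Sp c)) (lam : G2 D →* ℂˣ)
    (E : Sp c ≃ₗ[ℂ] Sp c) : Representation ℂ (G2 D) (Sp c) where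
  toFun g := (lam g : ℂ) • E.conj (rho g)
  map_one' := by
    rw [map_one, map_one, Units.val_one, one_smul]
    exact LinearEquiv.conj_id E
  map_mul' := by
    intro g h
    rw [map_mul, map_mul, Units.val_mul]
    apply LinearMap.ext
    intro f
    change ((lam g : ℂ) * (lam h : ℂ)) • E ((rho g * rho h) (E.symm f)) =
      (lam g : ℂ) • E (rho g (E.symm ((lam h : ℂ) • E (rho h (E.symm f)))))
    rw [map_smul, map_smul, map_smul, LinearEquiv.symm_apply_apply, smul_smul]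
    rfl

theorem rhoT_apply (rho : Representation ℂ (G2 D) (Sp c)) (lam : G2 D →* ℂˣ)
    (E : Sp c ≃ₗ[ℂ] Sp c) (g : G2 D) (f : Sp c) :
    rhoT rho lam E g f = (lam g : ℂ) • E (rho g (E.symm f)) := rfl

theorem st_TW : ST_TW := by
  intro D k _ _ _ c R h e lam hh he hlam hK
  have hlam1 : ∀ g, KK c ((h : ℤ) + 1) g → lam g = 1 := by
    intro g hg
    apply Units.ext
    rw [hK g (KK_mono (by omega) hg), Units.val_one, mul_add]
    exact c.psi_P _ (P_add (P_mul' he (hg 0 0) (by omega)) (P_mul' he (hg 1 1) (by omega)))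
  let ch : D → ℂˣ := fun x => lam (dg x 1)
  have hchm : ∀ x y, x ≠ 0 → y ≠ 0 → ch (x * y) = ch x * ch y := by
    intro x y hx hy
    simp only [ch]
    rw [← map_mul, dg_mul hx one_ne_zero hy one_ne_zero, mul_one]
  have hch : ∀ x u, c.P ((h + 1 : ℕ) : ℤ) u → x ≠ 0 → ch (x * (1 + u)) = ch x := by
    intro x u hu hx
    have hu1 : c.P 1 u := P_mono (by push_cast; omega) hu
    have h1 := (one_add hu1).1
    rw [hchm x _ hx h1]
    have h2 : ch (1 + u) = 1 := by
      simp only [ch]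
      apply hlam1
      have h3 := KK_dg (c := c) (m := (h : ℤ) + 1) (by omega) (a := u) (d := 0)
        (P_mono (by push_cast; omega) hu) (c.P_zero _)
      rwa [add_zero] at h3
    rw [h2, mul_one]
  let E := mulE c ch (h + 1) hch
  have hE : ∀ f x, (E f).1 x = (ch x : ℂ) * f.1 x := fun f x => rfl
  have hE' : ∀ f x, (E.symm f).1 x = (((ch x)⁻¹ : ℂˣ) : ℂ) * f.1 x := fun f x => rfl
  refine ⟨{ om := omT R.om lam, rho := rhoT R.rho lam E, rn := ?_, rt := ?_, sm := ?_ }, E, ?_, ?_⟩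
  · intro b f x
    rw [rhoT_apply, hlam b, Units.val_one, one_smul, hE, R.rn, hE']
    have := Units.mul_inv (ch x)
    calc (ch x : ℂ) * (c.psi (x * b) * ((((ch x)⁻¹ : ℂˣ) : ℂ) * f.1 x))
        = c.psi (x * b) * (((ch x : ℂ) * (((ch x)⁻¹ : ℂˣ) : ℂ)) * f.1 x) := by ring
      _ = _ := by rw [this, one_mul]
  · intro a d ha hd f x
    rw [rhoT_apply]
    change (lam (dg a d) : ℂ) * (E (R.rho (dg a d) (E.symm f))).1 x =
      (R.om d * (lam (dg d d) : ℂ)) * f.1 (d⁻¹ * x * a)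
    rw [hE, R.rt a d ha hd, hE']
    by_cases hx : x = 0
    · rw [hx]
      simp [val_zero]
    · have hd' : d⁻¹ ≠ 0 := inv_ne_zero hd
      have h1 : ch (d⁻¹ * x * a) = ch d⁻¹ * ch x * ch a := by
        rw [hchm _ _ (mul_ne_zero hd' hx) ha, hchm _ _ hd' hx]
      have h2 : lam (dg a d) = lam (dg d d) * (ch d⁻¹ * ch a) := by
        rw [← hchm _ _ hd' ha]
        simp only [ch]
        rw [← map_mul, dg_mul hd hd (mul_ne_zero hd' ha) one_ne_zero, mul_inv_cancel_left₀ hd,
          mul_one]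
      have h3 : (lam (dg a d) : ℂ) * (ch x : ℂ) =
          (lam (dg d d) : ℂ) * (ch (d⁻¹ * x * a) : ℂ) := by
        rw [h1, h2]
        push_cast
        ring
      have h4 := Units.mul_inv (ch (d⁻¹ * x * a))
      calc (lam (dg a d) : ℂ) * ((ch x : ℂ) * (R.om d *
            ((((ch (d⁻¹ * x * a))⁻¹ : ℂˣ) : ℂ) * f.1 (d⁻¹ * x * a))))
          = ((lam (dg a d) : ℂ) * (ch x : ℂ)) * (R.om d *
            ((((ch (d⁻¹ * x * a))⁻¹ : ℂˣ) : ℂ) * f.1 (d⁻¹ * x * a))) := by ring
        _ = (R.om d * (lam (dg d d) : ℂ)) * (((ch (d⁻¹ * x * a) : ℂ) *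
            (((ch (d⁻¹ * x * a))⁻¹ : ℂˣ) : ℂ)) * f.1 (d⁻¹ * x * a)) := by rw [h3]; ring
        _ = _ := by rw [h4, one_mul]
  · intro f
    obtain ⟨m, hm, hm'⟩ := R.sm (E.symm f)
    refine ⟨m + (h + 1), by omega, fun g hg => ?_⟩
    rw [rhoT_apply, hlam1 g (KK_mono (by push_cast; omega) hg),
      hm' g (KK_mono (by push_cast; omega) hg), Units.val_one, one_smul,
      LinearEquiv.apply_symm_apply]
  · intro f hf h0
    exact hf ((LinearEquiv.map_eq_zero_iff E).1 h0)
  · intro M f hf g hg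
    change rhoT R.rho lam E g (E f) = _
    rw [rhoT_apply, LinearEquiv.symm_apply_apply, hf g hg, map_smul, smul_smul, hK g hg,
      ← AddChar.map_add_eq_mul]
    congr 2
    simp only [Matrix.trace_fin_two, Matrix.mul_apply, Fin.sum_univ_two, Matrix.of_apply,
      Matrix.cons_val', Matrix.cons_val_zero, Matrix.cons_val_one, Matrix.cons_val_fin_one]
    noncomm_ring

end Pool.Agent.Helper72.QD
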